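import Mathlib
import Pool.Agent.Q30.Grig

/-!
The first Grigorchuk group is a quotient of the fundamental group of the closed orientable
surface of genus two.
-/

namespace Pool.Agent.Results.MP_a9f5dc_al.GenusTwo

open Q30.Grig
open scoped commutatorElement

/-- The relator `[x_1,y_1]⋯[x_g,y_g]`, with `x_i = (i,false)` and `y_i = (i,true)`. -/
def surfaceRelator (g : ℕ) : FreeGroup (Fin g × Bool) :=
  (List.ofFn fun i : Fin g => ⁅FreeGroup.of (i, false), FreeGroup.of (i, true)⁆).prod

/-- The fundamental group `S_g` of the closed orientable surface of genus `g`. -/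
abbrev SurfaceGroup (g : ℕ) : Type := PresentedGroup {surfaceRelator g}

/-- The generator `a`. -/
def aG : Gamma := ⟨a, Subgroup.subset_closure (by simp)⟩
/-- The generator `b`. -/
def bG : Gamma := ⟨b, Subgroup.subset_closure (by simp)⟩
/-- The generator `c`. -/
def cG : Gamma := ⟨c, Subgroup.subset_closure (by simp)⟩

theorem comm_bc : ⁅bG, cG⁆ = 1 := by
  rw [commutatorElement_eq_one_iff_mul_comm]
  apply Subtype.ext
  change b * c = c * b
  rw [b_mul_c, c_mul_b]

theorem closure_abc : Subgroup.closure {bG, cG, aG} = (⊤ : Subgroup Gamma) := by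
  rw [eq_top_iff]
  rintro ⟨g, hg⟩ -
  have key : Gamma ≤ (Subgroup.closure {bG, cG, aG}).map Gamma.subtype := by
    unfold Gamma
    rw [Subgroup.closure_le]
    have hb : bG ∈ Subgroup.closure {bG, cG, aG} := Subgroup.subset_closure (by simp)
    have hc : cG ∈ Subgroup.closure {bG, cG, aG} := Subgroup.subset_closure (by simp)
    have ha : aG ∈ Subgroup.closure {bG, cG, aG} := Subgroup.subset_closure (by simp)
    intro x hx
    rcases hx with rfl | rfl | rfl | rfl
    · exact ⟨aG, ha, rfl⟩
    · exact ⟨bG, hb, rfl⟩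
    · exact ⟨cG, hc, rfl⟩
    · exact ⟨bG * cG, mul_mem hb hc, b_mul_c⟩
  obtain ⟨y, hy, hyg⟩ := key hg
  have : y = ⟨g, hg⟩ := Subtype.ext hyg
  rwa [← this]

/-- The images of the four standard generators of the genus two surface group. -/
def img : Fin 2 × Bool → Gamma
  | (0, false) => bG
  | (0, true) => cG
  | (1, false) => aG
  | (1, true) => 1

theorem img_rel : ∀ r ∈ ({surfaceRelator 2} : Set (FreeGroup (Fin 2 × Bool))),
    FreeGroup.lift img r = 1 := by
  intro r hr
  rw [Set.mem_singleton_iff] at hr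
  subst hr
  simp only [surfaceRelator, List.ofFn_succ, List.ofFn_zero, List.prod_cons, List.prod_nil,
    map_mul, map_commutatorElement, FreeGroup.lift_apply_of, map_one, mul_one]
  change ⁅bG, cG⁆ * ⁅aG, 1⁆ = 1
  rw [comm_bc, commutatorElement_one_right, one_mul]

/-- The first Grigorchuk group `Γ` is a quotient of `S_2`; moreover there are
`u₁,v₁,u₂,v₂` generating `Γ` with `[u₁,v₁][u₂,v₂] = 1`. -/
theorem result :
    (∃ f : SurfaceGroup 2 →* Gamma, Function.Surjective f) ∧
    (∃ u₁ v₁ u₂ v₂ : Gamma, Subgroup.closure {u₁, v₁, u₂, v₂} = ⊤ ∧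
      ⁅u₁, v₁⁆ * ⁅u₂, v₂⁆ = 1) := by
  refine ⟨⟨PresentedGroup.toGroup img_rel, ?_⟩, bG, cG, aG, 1, ?_, ?_⟩
  · rw [← MonoidHom.range_eq_top, eq_top_iff, ← closure_abc, Subgroup.closure_le]
    rintro x (rfl | rfl | rfl)
    · exact ⟨PresentedGroup.of (0, false), by simp [img]⟩
    · exact ⟨PresentedGroup.of (0, true), by simp [img]⟩
    · exact ⟨PresentedGroup.of (1, false), by simp [img]⟩
  · rw [eq_top_iff, ← closure_abc]
    apply Subgroup.closure_mono
    intro x hx
    rcases hx with rfl | rfl | rfl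
    · simp
    · simp
    · simp
  · rw [comm_bc, commutatorElement_one_right, one_mul]

end Pool.Agent.Results.MP_a9f5dc_al.GenusTwo
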